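import Pool.Agent.Y769.SP.Main

set_option autoImplicit false

namespace Pool.Agent.Results.MP_2cc943_co.NoForcingProtoset

open Pool.Agent.Y769.SP

/-- Let `E` be a real normed space of finite positive dimension. The closed topological balls of `E`
are a class of tiles. For every class `𝒞` of compact tiles which is closed under similarities and
every finite set `𝒬` of prototiles (with nonempty interiors, or consisting of one prototile) that
admits a tiling by tiles in `𝒞`, some tiling admitted by `𝒬` either is not a `k`-similarity tiling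
for any `k ≥ 2`, or is a `k`-similarity tiling having at least two distinct `k`-compositions equal
to it. -/
theorem result (E : Type*) [NormedAddCommGroup E] [NormedSpace ℝ E] [FiniteDimensional ℝ E]
    [Nontrivial E] :
    IsTileClass {A : Set E | Nonempty (A ≃ₜ Metric.closedBall (0 : E) 1)} ∧
    ∀ 𝒞 : Set (Set E), IsTileClass 𝒞 → ∀ 𝒬 : Set (Set E), 𝒬.Finite →
      ((∀ P ∈ 𝒬, (interior P).Nonempty) ∨ 𝒬.Subsingleton) → (∃ T, Admits 𝒞 𝒬 T) →
      ∃ T, Admits 𝒞 𝒬 T ∧ ((∀ k : ℕ, 2 ≤ k → ¬ IsKSimilarity 𝒞 k T) ∨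
        ∃ k : ℕ, IsKSimilarity 𝒞 k T ∧ ∃ T₁ T₂, T₁ ≠ T₂ ∧
          (IsComposition 𝒞 k T₁ T ∧ Equal T T₁) ∧ (IsComposition 𝒞 k T₂ T ∧ Equal T T₂)) :=
  ⟨tileClass_balls, fun _ h𝒞 𝒬 hfin hint hex => main_thm h𝒞 𝒬 hfin hint hex⟩

end Pool.Agent.Results.MP_2cc943_co.NoForcingProtoset
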